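import Pool.Agent.Helper220_VW.CoreSub

set_option autoImplicit false

open scoped commutatorElement

namespace Pool.Agent.Results.MP_bcef47_al.ContractingBranch

/-- Let `X` be a finite alphabet with at least two letters and let `G` be a finitely generated
group of permutations of the set of finite words over `X` (the vertices of the regular rooted
tree) which is self-similar (`hself`; this makes its elements automorphisms of the rooted tree),
transitive on every level (`htrans`), contracting, that is with a finite set `N` containing all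
sections of each of its elements at all sufficiently deep vertices (`hcon`), and regular branch
over a subgroup `K` of finite index (`hbr`: `K` contains the copy of `K` acting on any one of the
first level subtrees), where `K` has finite abelianisation (`hK'`). Then for every set `V` of
words the verbal subgroup `V(G)` has finite width with respect to `V`. -/
theorem result (X : Type) [Finite X] [Nontrivial X]
    (G : Subgroup (Equiv.Perm (List X))) (hfg : G.FG)
    (hself : ∀ g ∈ G, ∀ x : X, ∃ y : X, ∃ s ∈ G, ∀ w : List X, g (x :: w) = y :: s w)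
    (htrans : ∀ u v : List X, u.length = v.length → ∃ g ∈ G, g u = v)
    (N : Set (Equiv.Perm (List X))) (hN : N.Finite)
    (hcon : ∀ g ∈ G, ∃ n : ℕ, ∀ u : List X, n ≤ u.length →
      ∃ s ∈ N, ∀ w : List X, g (u ++ w) = g u ++ s w)
    (K : Subgroup (Equiv.Perm (List X))) (hKG : K ≤ G) (hKi : K.relIndex G ≠ 0)
    (hbr : ∀ k ∈ K, ∀ x : X, ∃ g ∈ K, (∀ w : List X, g (x :: w) = x :: k w) ∧
      ∀ y : X, y ≠ x → ∀ w : List X, g (y :: w) = y :: w)
    (hK' : (⁅K, K⁆ : Subgroup (Equiv.Perm (List X))).relIndex K ≠ 0)
    (V : Set (FreeGroup ℕ)) :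
    ∃ m : ℕ, ∀ g ∈ Subgroup.closure
        {h : G | ∃ w ∈ V, ∃ f : ℕ → G, FreeGroup.lift f w = h},
      ∃ l : List G, l.length ≤ m ∧
        (∀ x ∈ l, (∃ w ∈ V, ∃ f : ℕ → G, FreeGroup.lift f w = x) ∨
          (∃ w ∈ V, ∃ f : ℕ → G, FreeGroup.lift f w = x⁻¹)) ∧
        l.prod = g :=
  Pool.Agent.Helper220_VW.contracting_branch X G hfg hself htrans N hN hcon K hKG hKi hbr hK' V

end Pool.Agent.Results.MP_bcef47_al.ContractingBranch
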