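import Pool.Agent.Helper220_VW.GrigEq

set_option autoImplicit false

open Pool.Agent.Helper220_VW.Grig (Gr)

namespace Pool.Agent.Results.MP_bcef47_al.GrigorchukFamily

/-- For a sequence `ω` of letters from `{0, 1, 2}` let `Gr ω` be the group of permutations of the
set of finite binary words (the vertices of the binary rooted tree) generated by `a`, which
changes the first letter, and `b_0, b_1, b_2`, where `b_i (0w) = 0w` if `ω 0 = i`,
`b_i (0w) = 0 a(w)` if `ω 0 ≠ i`, and `b_i (1w) = 1 b_i'(w)` with `b_i'` the generator `b_i` for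
the shifted sequence: the Grigorchuk group of `ω`. If `ω` is not eventually constant then for
every set `V` of words the verbal subgroup `V(Gr ω)` has finite width with respect to `V`. -/
theorem result (ω : ℕ → Fin 3) (hω : ∀ i N, ∃ n ≥ N, ω n ≠ i) (V : Set (FreeGroup ℕ)) :
    ∃ m : ℕ, ∀ g ∈ Subgroup.closure {h : Gr ω | ∃ w ∈ V, ∃ f : ℕ → Gr ω,
        FreeGroup.lift f w = h},
      ∃ l : List (Gr ω), l.length ≤ m ∧
        (∀ x ∈ l, (∃ w ∈ V, ∃ f : ℕ → Gr ω, FreeGroup.lift f w = x) ∨
          (∃ w ∈ V, ∃ f : ℕ → Gr ω, FreeGroup.lift f w = x⁻¹)) ∧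
        l.prod = g :=
  Pool.Agent.Helper220_VW.Grig.width ω hω V

end Pool.Agent.Results.MP_bcef47_al.GrigorchukFamily
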