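import Pool.Agent.Helper220_VW.Sp5

set_option autoImplicit false

open Pool.Agent.Helper220_VW.Spn (Gp FinWidth)

namespace Pool.Agent.Results.MP_bcef47_al.SpinalFamily

/-- Let `A` and `B` be finite abelian groups and, for each level `n`, let `ω n x` be homomorphisms
from `B` to `A`, one for each letter `x` in `A`, such that for each `n` there is a letter `c ≠ 1`
with `ω n c` surjective and `ω n c⁻¹` trivial. Let `Gp ω 0` be the spinal group of `ω`: the group
of permutations of the finite words in the alphabet `A` generated by the multiplications of the
first letter by the elements of `A` and by the directed permutations `b_(0, β)` for `β` in `B`,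
where `b_(n, β) (1w) = 1 b_(n + 1, β) (w)` and, for `x ≠ 1`, `b_(n, β) (xw) = xw'` with `w'` the
word `w` with its first letter multiplied by `ω n x β`. Then for every set `V` of words the verbal
subgroup `V(Gp ω 0)` has finite width with respect to `V`. -/
theorem result (A B : Type) [CommGroup A] [Finite A] [DecidableEq A] [CommGroup B] [Finite B]
    (ω : ℕ → A → (B →* A))
    (hω : ∀ n, ∃ c : A, c ≠ 1 ∧ Function.Surjective (ω n c) ∧ ω n c⁻¹ = 1)
    (V : Set (FreeGroup ℕ)) : FinWidth V (Gp ω 0) :=
  Pool.Agent.Helper220_VW.Spn.sp_verbal ω hω 0 V

end Pool.Agent.Results.MP_bcef47_al.SpinalFamily
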