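import Pool.Agent.Helper220_VW.WrGrig

set_option autoImplicit false

open Pool.Agent.Helper220_VW.Grig (Gr)
open Pool.Agent.Helper220_VW.Wrp (PWr FinWidth)

namespace Pool.Agent.Results.MP_bcef47_al.WreathGrigorchuk

/-- Let `Gr ω` be the Grigorchuk group of a sequence `ω` which is not eventually constant, acting
on a set `X` with finitely many orbits, all of them infinite, and let `A` be any finitely
generated group. Then for every set `V` of words the verbal subgroup `V(W)` of the permutational
wreath product `W`, the semidirect product of the group of functions of finite support from `X`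
to `A` by `Gr ω`, has finite width with respect to `V`. -/
theorem result (ω : ℕ → Fin 3) (hω : ∀ i N, ∃ n ≥ N, ω n ≠ i)
    (A : Type) [Group A] [Group.FG A] (X : Type) [MulAction (Gr ω) X]
    (hX : Finite (MulAction.orbitRel.Quotient (Gr ω) X))
    (horb : ∀ x : X, (MulAction.orbit (Gr ω) x).Infinite) (V : Set (FreeGroup ℕ)) :
    FinWidth V (PWr A (Gr ω) X) :=
  Pool.Agent.Helper220_VW.Wrp.wr_grig ω hω A X hX horb V

end Pool.Agent.Results.MP_bcef47_al.WreathGrigorchuk
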